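import Pool.Agent.H20.Cen4

namespace Pool.Agent.Results.MP_e8899b_al.NotQ2

open Pool.Agent.H20.Rkg

theorem result : ∃ (L : Set (FreeGroup ℕ)) (k : ℕ), 1 ≤ k ∧
    (∀ (G : Type) [Group G], CentreBy L G ↔ CentreBy {w | IsLaw (RelFree L k) w} G) ∧
    ¬ Generates L (RelFree L k) :=
  ⟨_, 2, by norm_num, Pool.Agent.H20.Cen.main⟩

end Pool.Agent.Results.MP_e8899b_al.NotQ2
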